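import Pool.Agent.Helper79.GR.DD
import Pool.Agent.Helper79.GR.DA

/-!
# DET: detours around a set of edges

A function `f` on the edges with values mod 2 whose sum over each unit square is `0` (`Cl`) has the
same sum along all walks with the same ends (`sm_eq`): adjacent steps may be exchanged, so the sum
depends only on the multiset of the steps, and two opposite steps cancel.

`det`: if the walk `w₀` avoids the set `Q` of edges, for every walk `w` with the same ends there is
a walk with these ends which uses only edges of `w` off `Q` and edges off `Q` which have a unit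
square in common with an edge of `Q`.  (If not, take the set `C` of the vertices reached from the
first end; `f e = 1` if `e ∈ Q` and `e` has exactly one end in `C`.)
-/

set_option autoImplicit false

namespace Pool.Agent.Helper19.DT

open Pool.Agent.Helper79.GR

variable {d : ℕ}

/-- the opposite step -/
def op (s : St d) : St d := (s.1, !s.2)

theorem op_op (s : St d) : op (op s) = s := by
  rcases s with ⟨i, _ | _⟩ <;> rfl

theorem sv_op (s : St d) : sv (op s) = -sv s := by
  rcases s with ⟨i, _ | _⟩
  · funext j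
    rcases eq_or_ne j i with rfl | hj <;> simp [sv, op, *]
  · funext j
    rcases eq_or_ne j i with rfl | hj <;> simp [sv, op, *]

theorem ed_op (x : V d) (s : St d) : ed (x + sv s) (op s) = ed x s := by
  apply Subtype.ext
  show s(x + sv s, x + sv s + sv (op s)) = s(x, x + sv s)
  rw [sv_op, add_neg_cancel_right, Sym2.eq_swap]

/-- the reversed walk -/
def rev (w : List (St d)) : List (St d) := (w.map op).reverse

theorem rev_cons (s : St d) (w : List (St d)) : rev (s :: w) = rev w ++ [op s] := by
  simp [rev]

theorem pos_rev (w : List (St d)) : ∀ x, pos (pos x w) (rev w) = x := by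
  induction w with
  | nil => intro x; rfl
  | cons s w ih =>
    intro x
    rw [rev_cons, pos_append]
    show pos (pos (pos (x + sv s) w) (rev w)) [op s] = x
    rw [ih]
    show x + sv s + sv (op s) = x
    rw [sv_op, add_neg_cancel_right]

/-- the sum of `f` along a walk -/
def sm (f : Edge d → ZMod 2) : V d → List (St d) → ZMod 2
  | _, [] => 0
  | x, s :: w => f (ed x s) + sm f (x + sv s) w

theorem sm_append (f : Edge d → ZMod 2) (w w' : List (St d)) :
    ∀ x, sm f x (w ++ w') = sm f x w + sm f (pos x w) w' := by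
  induction w with
  | nil => intro x; exact (zero_add _).symm
  | cons s w ih =>
    intro x
    show f (ed x s) + sm f (x + sv s) (w ++ w') = f (ed x s) + sm f (x + sv s) w + _
    rw [ih, add_assoc]
    rfl

theorem sm_rev (f : Edge d → ZMod 2) (w : List (St d)) :
    ∀ x, sm f (pos x w) (rev w) = sm f x w := by
  induction w with
  | nil => intro x; rfl
  | cons s w ih =>
    intro x
    rw [rev_cons, sm_append]
    show sm f (pos (x + sv s) w) (rev w) + sm f (pos (pos (x + sv s) w) (rev w)) [op s] =
      f (ed x s) + sm f (x + sv s) w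
    rw [ih, pos_rev, add_comm]
    show f (ed (x + sv s) (op s)) + 0 + _ = _
    rw [ed_op, add_zero]

theorem two_add (a : ZMod 2) : a + a = 0 := CharTwo.add_self_eq_zero a

/-- the sum of `f` over each unit square is zero -/
def Cl (f : Edge d → ZMod 2) : Prop :=
  ∀ (x : V d) (s t : St d), s.1 ≠ t.1 →
    f (ed x s) + f (ed (x + sv s) t) = f (ed x t) + f (ed (x + sv t) s)

theorem Cl.all {f : Edge d → ZMod 2} (h : Cl f) (x : V d) (s t : St d) :
    f (ed x s) + f (ed (x + sv s) t) = f (ed x t) + f (ed (x + sv t) s) := by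
  by_cases h1 : s.1 = t.1
  · by_cases h2 : s.2 = t.2
    · rw [Prod.ext h1 h2]
    · have h3 : t = op s := by
        refine Prod.ext h1.symm ?_
        show t.2 = !s.2
        cases hs : s.2 <;> cases ht : t.2 <;> simp_all
      have h4 : ed (x + sv (op s)) s = ed x (op s) := by
        have := ed_op x (op s)
        rwa [op_op] at this
      rw [h3, ed_op, two_add, h4, two_add]
  · exact h x s t h1

theorem sm_perm {f : Edge d → ZMod 2} (h : Cl f) {w w' : List (St d)} (p : w.Perm w') :
    ∀ x, sm f x w = sm f x w' := by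
  induction p with
  | nil => intro x; rfl
  | cons s _ ih =>
    intro x
    show f (ed x s) + _ = f (ed x s) + _
    rw [ih]
  | swap s t l =>
    intro x
    show f (ed x t) + (f (ed (x + sv t) s) + sm f (x + sv t + sv s) l) =
      f (ed x s) + (f (ed (x + sv s) t) + sm f (x + sv s + sv t) l)
    rw [← add_assoc, ← add_assoc, h.all x t s, add_right_comm x (sv t) (sv s)]
  | trans _ _ ih1 ih2 =>
    intro x
    rw [ih1, ih2]

theorem pos_eq (w : List (St d)) : ∀ x, pos x w = x + (w.map sv).sum := by
  induction w with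
  | nil => intro x; exact (add_zero _).symm
  | cons s w ih =>
    intro x
    show pos (x + sv s) w = _
    rw [ih, List.map_cons, List.sum_cons, add_assoc]

theorem pos_perm {w w' : List (St d)} (p : w.Perm w') (x : V d) : pos x w = pos x w' := by
  rw [pos_eq, pos_eq, (p.map sv).sum_eq]

/-- the sign of a step -/
def sgn (s : St d) : ℤ := if s.2 then 1 else -1

theorem sgn_self (s : St d) : sgn s * sv s s.1 = 1 := by
  rcases s with ⟨i, _ | _⟩ <;> simp [sgn, sv]

theorem sgn_nonneg {s t : St d} (h : t ≠ op s) : 0 ≤ sgn s * sv t s.1 := by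
  rcases s with ⟨i, b⟩
  rcases t with ⟨j, c⟩
  rcases eq_or_ne i j with rfl | hij
  · have hb : b = c := by
      by_contra hne
      apply h
      refine Prod.ext rfl ?_
      show c = !b
      cases b <;> cases c <;> simp_all
    rw [hb]
    cases c <;> simp [sgn, sv]
  · have : sv ((j, c) : St d) i = 0 := by
      simp [sv, Pi.single_eq_of_ne hij]
    show 0 ≤ sgn (i, b) * sv ((j, c) : St d) i
    rw [this, mul_zero]

theorem sum_nonneg {s : St d} : ∀ w : List (St d), op s ∉ w →
    0 ≤ sgn s * ((w.map sv).sum) s.1 := by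
  intro w
  induction w with
  | nil => intro _; simp
  | cons t w ih =>
    intro h
    rw [List.mem_cons, not_or] at h
    rw [List.map_cons, List.sum_cons, Pi.add_apply, mul_add]
    exact add_nonneg (sgn_nonneg (Ne.symm h.1)) (ih h.2)

theorem sm_closed {f : Edge d → ZMod 2} (h : Cl f) : ∀ (n : ℕ) (w : List (St d)),
    w.length ≤ n → ∀ x, pos x w = x → sm f x w = 0 := by
  intro n
  induction n with
  | zero =>
    intro w hw x _
    rw [List.length_eq_zero_iff.1 (Nat.le_zero.1 hw)]
    rfl
  | succ n ih =>
    intro w hw x hx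
    rcases w with _ | ⟨s, w⟩
    · rfl
    have hmem : op s ∈ w := by
      by_contra hno
      have h1 := sum_nonneg w hno
      rw [pos_eq, List.map_cons, List.sum_cons, add_eq_left] at hx
      have h2 := congrFun hx s.1
      rw [Pi.add_apply, Pi.zero_apply] at h2
      have h3 := sgn_self s
      have h4 : sgn s * (sv s s.1 + (w.map sv).sum s.1) = 0 := by rw [h2, mul_zero]
      rw [mul_add] at h4
      omega
    have hp : (s :: w).Perm (s :: op s :: w.erase (op s)) := (List.perm_cons_erase hmem).cons s
    rw [sm_perm h hp]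
    have hx2 : pos x (w.erase (op s)) = x := by
      have h1 := pos_perm hp x
      rw [hx] at h1
      have h2 : pos x (s :: op s :: w.erase (op s)) = pos x (w.erase (op s)) := by
        show pos (x + sv s + sv (op s)) _ = _
        rw [sv_op, add_neg_cancel_right]
      rw [← h2, ← h1]
    have hl : (w.erase (op s)).length ≤ n := by
      have h1 := List.length_erase_of_mem hmem
      have h2 : w.length + 1 ≤ n + 1 := hw
      omega
    show f (ed x s) + (f (ed (x + sv s) (op s)) + sm f (x + sv s + sv (op s)) _) = 0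
    rw [ed_op, sv_op, add_neg_cancel_right, ih _ hl x hx2, add_zero, two_add]

/-- the sum depends only on the ends of the walk -/
theorem sm_eq {f : Edge d → ZMod 2} (h : Cl f) {x : V d} {w w' : List (St d)}
    (hw : pos x w = pos x w') : sm f x w = sm f x w' := by
  have h1 := sm_closed h _ (w ++ rev w') le_rfl x (by rw [pos_append, hw, pos_rev])
  rw [sm_append, hw, sm_rev] at h1
  have h2 := congrArg (· + sm f x w') h1
  simpa [add_assoc, two_add] using h2

/-- two edges with a unit square in common -/
def Adj (e e' : Edge d) : Prop := ∃ (x : V d) (s t : St d), s.1 ≠ t.1 ∧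
  (e = ed x s ∨ e = ed (x + sv s) t ∨ e = ed x t ∨ e = ed (x + sv t) s) ∧
  (e' = ed x s ∨ e' = ed (x + sv s) t ∨ e' = ed x t ∨ e' = ed (x + sv t) s)

/-- the coboundary of a set of vertices with indicator `g` -/
def cob (g : V d → ZMod 2) (e : Edge d) : ZMod 2 :=
  Sym2.lift ⟨fun p q => g p + g q, fun _ _ => add_comm _ _⟩ e.1

theorem cob_ed (g : V d → ZMod 2) (x : V d) (s : St d) : cob g (ed x s) = g x + g (x + sv s) := rfl

theorem sm_cob (g : V d → ZMod 2) (w : List (St d)) : ∀ x, sm (cob g) x w = g x + g (pos x w) := by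
  induction w with
  | nil => intro x; exact (two_add _).symm
  | cons s w ih =>
    intro x
    show cob g (ed x s) + sm (cob g) (x + sv s) w = g x + g (pos (x + sv s) w)
    rw [ih, cob_ed]
    have := two_add (g (x + sv s))
    linear_combination this

theorem sm_congr {f f' : Edge d → ZMod 2} (w : List (St d)) :
    ∀ x, (∀ e ∈ eds x w, f e = f' e) → sm f x w = sm f' x w := by
  induction w with
  | nil => intro x _; rfl
  | cons s w ih =>
    intro x h
    show f (ed x s) + sm f (x + sv s) w = f' (ed x s) + sm f' (x + sv s) w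
    rw [h _ (List.mem_cons_self ..), ih _ fun e he => h e (List.mem_cons_of_mem _ he)]

theorem sm_zero (w : List (St d)) : ∀ x, sm (fun _ => 0) x w = 0 := by
  induction w with
  | nil => intro x; rfl
  | cons s w ih =>
    intro x
    show 0 + _ = _
    rw [ih, add_zero]

theorem exists_step (a b : V d) (h : ∑ i, |a i - b i| = 1) : ∃ s : St d, a + sv s = b := by
  obtain ⟨w, h1, h2⟩ := exists_walk a b
  have h3 : n1 (b - a) = 1 := by
    have e : n1 (b - a) = ((∑ i, |a i - b i| : ℤ) : ℝ) := by
      unfold n1
      rw [Int.cast_sum]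
      refine Finset.sum_congr rfl fun i _ => ?_
      rw [Pi.sub_apply, Int.cast_abs, ← Int.cast_abs, ← Int.cast_abs, abs_sub_comm]
    rw [e, h, Int.cast_one]
  rw [h3] at h2
  have h4 : w.length = 1 := by exact_mod_cast h2
  obtain ⟨s, hs⟩ := List.length_eq_one_iff.1 h4
  rw [hs] at h1
  exact ⟨s, h1⟩

theorem exists_ed (e : Edge d) : ∃ y s, e = ed y s := by
  obtain ⟨e, a, b, rfl, hab⟩ := e
  obtain ⟨s, hs⟩ := exists_step a b hab
  exact ⟨a, s, by apply Subtype.ext; show s(a, b) = s(a, a + sv s); rw [hs]⟩

open Classical in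
/-- **Detours.** -/
theorem det {Q : Set (Edge d)} {x : V d} {w w₀ : List (St d)} (hw : pos x w = pos x w₀)
    (h0 : ∀ e ∈ eds x w₀, e ∉ Q) :
    ∃ w' : List (St d), pos x w' = pos x w ∧
      ∀ e ∈ eds x w', e ∉ Q ∧ (e ∈ eds x w ∨ ∃ e' ∈ Q, Adj e e') := by
  by_contra hcon
  obtain ⟨H, hH⟩ : ∃ H : Set (Edge d), H = {e | e ∉ Q ∧ (e ∈ eds x w ∨ ∃ e' ∈ Q, Adj e e')} :=
    ⟨_, rfl⟩
  obtain ⟨C, hC⟩ : ∃ C : Set (V d), C = {y | ∃ w', pos x w' = y ∧ ∀ e ∈ eds x w', e ∈ H} :=
    ⟨_, rfl⟩
  have hstep : ∀ y s, y ∈ C → ed y s ∈ H → y + sv s ∈ C := by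
    intro y s hy hs
    rw [hC] at hy ⊢
    obtain ⟨w', h1, h2⟩ := hy
    refine ⟨w' ++ [s], ?_, ?_⟩
    · rw [pos_append, h1]
      rfl
    · intro e he
      rw [eds_append, List.mem_append, h1] at he
      rcases he with he | he
      · exact h2 e he
      · have he' : e ∈ [ed y s] := he
        rw [List.mem_singleton] at he'
        rwa [he']
  have hiff : ∀ y s, ed y s ∈ H → (y ∈ C ↔ y + sv s ∈ C) := by
    intro y s hs
    refine ⟨fun hy => hstep y s hy hs, fun hy => ?_⟩
    have h1 := hstep (y + sv s) (op s) hy (by rwa [ed_op])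
    rwa [sv_op, add_neg_cancel_right] at h1
  obtain ⟨g, hg⟩ : ∃ g : V d → ZMod 2, g = fun y => if y ∈ C then 1 else 0 := ⟨_, rfl⟩
  have hcob : ∀ e ∈ H, cob g e = 0 := by
    intro e he
    obtain ⟨y, s, rfl⟩ := exists_ed e
    rw [cob_ed, hg]
    by_cases hy : y ∈ C
    · have h1 := (hiff y s he).1 hy
      simp only [if_pos hy, if_pos h1, two_add]
    · have h1 : y + sv s ∉ C := fun h1 => hy ((hiff y s he).2 h1)
      simp only [if_neg hy, if_neg h1, add_zero]
  obtain ⟨f, hf⟩ : ∃ f : Edge d → ZMod 2, f = fun e => if e ∈ Q then cob g e else 0 := ⟨_, rfl⟩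
  have hcl : Cl f := by
    intro y s t hst
    have key : (∃ e' ∈ Q, e' = ed y s ∨ e' = ed (y + sv s) t ∨ e' = ed y t ∨
        e' = ed (y + sv t) s) → ∀ e, (e = ed y s ∨ e = ed (y + sv s) t ∨ e = ed y t ∨
        e = ed (y + sv t) s) → f e = cob g e := by
      rintro ⟨e', he', h1⟩ e h2
      rw [hf]
      by_cases he : e ∈ Q
      · exact if_pos he
      · show (if e ∈ Q then cob g e else 0) = cob g e
        rw [if_neg he, hcob e]
        rw [hH]
        exact ⟨he, Or.inr ⟨e', he', y, s, t, hst, h2, h1⟩⟩
    by_cases hq : ∃ e' ∈ Q, e' = ed y s ∨ e' = ed (y + sv s) t ∨ e' = ed y t ∨ e' = ed (y + sv t) s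
    · have k := key hq
      rw [k _ (Or.inl rfl), k _ (Or.inr (Or.inl rfl)), k _ (Or.inr (Or.inr (Or.inl rfl))),
        k _ (Or.inr (Or.inr (Or.inr rfl))), cob_ed, cob_ed, cob_ed, cob_ed,
        add_right_comm y (sv s) (sv t)]
      have h1 := two_add (g (y + sv s))
      have h2 := two_add (g (y + sv t))
      linear_combination h1 - h2
    · push Not at hq
      have k : ∀ e, (e = ed y s ∨ e = ed (y + sv s) t ∨ e = ed y t ∨ e = ed (y + sv t) s) →
          f e = 0 := by
        intro e he
        rw [hf]
        show (if e ∈ Q then cob g e else 0) = 0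
        refine if_neg fun hQ => ?_
        obtain ⟨a1, a2, a3, a4⟩ := hq e hQ
        rcases he with he | he | he | he
        · exact a1 he
        · exact a2 he
        · exact a3 he
        · exact a4 he
      rw [k _ (Or.inl rfl), k _ (Or.inr (Or.inl rfl)), k _ (Or.inr (Or.inr (Or.inl rfl))),
        k _ (Or.inr (Or.inr (Or.inr rfl)))]
  have hx : x ∈ C := by
    rw [hC]
    exact ⟨[], rfl, fun e he => by simp [eds] at he⟩
  have hz : pos x w ∉ C := by
    intro hz
    rw [hC] at hz
    obtain ⟨w', h1, h2⟩ := hz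
    refine hcon ⟨w', h1, fun e he => ?_⟩
    have h3 := h2 e he
    rw [hH] at h3
    exact h3
  have h1 : sm f x w = 1 := by
    have h2 : sm f x w = sm (cob g) x w := by
      refine sm_congr w x fun e he => ?_
      rw [hf]
      by_cases hQ : e ∈ Q
      · exact if_pos hQ
      · show (if e ∈ Q then cob g e else 0) = cob g e
        rw [if_neg hQ, hcob e]
        rw [hH]
        exact ⟨hQ, Or.inl he⟩
    rw [h2, sm_cob, hg]
    simp only [if_pos hx, if_neg hz, add_zero]
  have h2 : sm f x w₀ = 0 := by
    rw [← sm_zero w₀ x]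
    refine sm_congr w₀ x fun e he => ?_
    rw [hf]
    exact if_neg (h0 e he)
  rw [sm_eq hcl hw, h2] at h1
  exact zero_ne_one h1

end Pool.Agent.Helper19.DT
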